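import Pool.Agent.Helper30.UP.All

set_option autoImplicit false

/-!
Linear covering codes of minimum distance at least `3` whose dual code has at most `r` nonzero
weights (external distance at most `r`, so that Delsarte's theorem gives covering radius at most
`r`): the covering density is at least `(1 - o(1)) r ^ r / r!`, and this is sharp.
-/

namespace Pool.Agent.Results.MP_e73f90_co.ExternalDistance

/-- The covering density `|V| |B(n,r)| / 2 ^ n`. -/
noncomputable def density {n : ℕ} (V : Submodule (ZMod 2) (Fin n → ZMod 2)) (r : ℕ) : ℝ :=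
  (Nat.card V : ℝ) *
    (((Finset.univ.filter (fun x : Fin n → ZMod 2 => hammingNorm x ≤ r)).card : ℕ) : ℝ)
      / (2 : ℝ) ^ n

/-- The set of weights of the nonzero words of the dual code
`{u | ∑ i, v i * u i = 0 for all v ∈ V}`. -/
def dualWeights {n : ℕ} (V : Submodule (ZMod 2) (Fin n → ZMod 2)) : Set ℕ :=
  {w : ℕ | ∃ u : Fin n → ZMod 2, u ≠ 0 ∧ (∀ v ∈ V, ∑ i, v i * u i = 0) ∧ hammingNorm u = w}

open Pool.Agent.Helper30.UP

open scoped Classical in
theorem dw_eq {n : ℕ} (V : Submodule (ZMod 2) (Fin n → ZMod 2)) :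
    (dualWeights V).ncard = (dw V).card := by
  rw [← Set.ncard_coe_finset]
  congr 1
  ext w
  rw [Finset.mem_coe]
  unfold dw
  rw [Finset.mem_image]
  constructor
  · rintro ⟨u, h1, h2, h3⟩
    refine ⟨u, ?_, h3⟩
    rw [Finset.mem_filter]
    exact ⟨Finset.mem_univ _, h1, h2⟩
  · rintro ⟨u, h1, h3⟩
    rw [Finset.mem_filter] at h1
    exact ⟨u, h1.2.1, h1.2.2, h3⟩

theorem dens_eq {n : ℕ} (V : Submodule (ZMod 2) (Fin n → ZMod 2)) (r : ℕ) :
    density V r = dens V r := by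
  unfold density dens
  congr!

/-- For every `r ≥ 1` the smallest asymptotic density of linear codes of minimum distance at least
`3` whose dual has at most `r` nonzero weights is exactly `r ^ r / r!`, which is at least
`2 ^ (r - 1)`; all these codes are covering subspaces of radius `r`. -/
theorem result : ∀ r : ℕ, 1 ≤ r →
    (∀ ε : ℝ, 0 < ε → ∃ n₀ : ℕ, ∀ n : ℕ, n₀ ≤ n →
      ∀ V : Submodule (ZMod 2) (Fin n → ZMod 2),
        (∀ v ∈ V, v ≠ 0 → 3 ≤ hammingNorm v) → (dualWeights V).ncard ≤ r →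
          (∀ y : Fin n → ZMod 2, ∃ v ∈ V, hammingNorm (y - v) ≤ r) ∧
            (1 - ε) * ((r : ℝ) ^ r / (r.factorial : ℝ)) ≤ density V r) ∧
    (∀ (ε : ℝ) (M : ℕ), 0 < ε → ∃ (n : ℕ) (V : Submodule (ZMod 2) (Fin n → ZMod 2)),
      M ≤ n ∧ (∀ v ∈ V, v ≠ 0 → 3 ≤ hammingNorm v) ∧ (dualWeights V).ncard ≤ r ∧
        density V r ≤ (1 + ε) * ((r : ℝ) ^ r / (r.factorial : ℝ))) ∧
    (2 : ℝ) ^ (r - 1) ≤ (r : ℝ) ^ r / (r.factorial : ℝ) := by
  intro r hr
  obtain ⟨h1, h2, h3⟩ := all_FIN r hr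
  refine ⟨?_, ?_, h3⟩
  · intro ε hε
    obtain ⟨n₀, h4⟩ := h1 ε hε
    refine ⟨n₀, fun n hn V hV hd => ?_⟩
    rw [dw_eq] at hd
    rw [dens_eq]
    exact h4 n hn V hV hd
  · intro ε M hε
    obtain ⟨n, V, h5, h6, h7, h8⟩ := h2 ε M hε
    refine ⟨n, V, h5, h6, ?_, ?_⟩
    · rw [dw_eq]
      exact h7
    · rw [dens_eq]
      exact h8

end Pool.Agent.Results.MP_e73f90_co.ExternalDistance
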