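import Pool.Agent.Helper75.FS.All

/-!
# The asymptotic covering densities of linear codes are governed by finite codes

`mm n r` is the least density `|V| |B(n,r)| / 2^n` of a linear covering code `V ≤ F_2^n` of radius `r`; `LL r ρ` is the infimum
of `(n+r)^r / (r! 2^c)` over all linear codes of length `n`, codimension `c ≡ ρ (mod r)` and covering radius at most `r`
(all `n` and `c`).  The cluster points of `n ↦ mm n r` are exactly the numbers in the union of the `r` intervals
`[LL r ρ, 2 LL r (ρ+1)]`, its limit inferior is `min_ρ LL r ρ` and its limit superior is `2 max_ρ LL r ρ`.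

Definitions `Cov`, `ball`, `mm`, `Code`, `LL`: `Pool/Agent/Helper75/FS/St.lean`.
-/

set_option autoImplicit false

namespace Pool.Agent.Results.MP_e73f90_co.FiniteCodes

open Pool.Agent.Helper75.FS Filter

theorem result (r : ℕ) (hr : 1 ≤ r) :
    {x : ℝ | MapClusterPt x atTop (fun n : ℕ => mm n r)} =
      (⋃ ρ : Fin r, Set.Icc (LL r ρ) (2 * LL r ((ρ : ℕ) + 1))) ∧
    Filter.liminf (fun n : ℕ => ((mm n r : ℝ) : EReal)) atTop =
      ⨅ ρ : Fin r, ((LL r ρ : ℝ) : EReal) ∧
    Filter.limsup (fun n : ℕ => ((mm n r : ℝ) : EReal)) atTop =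
      ⨆ ρ : Fin r, ((2 * LL r ρ : ℝ) : EReal) :=
  ⟨aF3 r hr, aF1 r hr, aF2 r hr⟩

end Pool.Agent.Results.MP_e73f90_co.FiniteCodes
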