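import Pool.Agent.Helper87.TB.All

/-!
# Turán barrier for linear covering codes

`V ≤ F_2^n` linear with covering radius at most `r`, `dens n r V = |V| |B(n,r)| / 2^n`.  A set `J` of coordinates is `ω`-rich if at
least `ω` sets of the same size have their word in the coset of the word of `J` (a pair lying in at least `ω` codewords of
weight 4 is rich).

(A) If the density is at most `M` then at least `(1 - ε) C(n,r) / M` of the `r`-sets of coordinates have no rich nonempty subset.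
(B) If every `N + 1` coordinates contain a rich pair, the density is at least `1 / (∏_{j<r} (1 - j/N) + ε)`.
(C) If the density is less than `exp (r (r-1) / (2N))` there are `N + 1` coordinates without rich pair.
(D) The bound in (B) is sharp up to the factor `2 log (2 C(N,r))`.

Definitions: `Pool/Agent/Helper87/TB/Defs.lean`.
-/

set_option autoImplicit false

namespace Pool.Agent.Results.MP_e73f90_co.TuranBarrier

open Pool.Agent.Helper87.TB Finset

theorem result :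
    (∀ (r : ℕ) (M ε : ℝ), 0 < ε → ∃ ω n0 : ℕ, ∀ n : ℕ, n0 ≤ n → ∀ V : Submodule (ZMod 2) (W n),
      Cov n r V → dens n r V ≤ M →
        (1 - ε) * (n.choose r : ℝ) ≤ M * ((poorSets V ω r).card : ℝ)) ∧
    (∀ (r N : ℕ) (ε : ℝ), 1 ≤ N → 0 < ε → ∃ ω n0 : ℕ, ∀ n : ℕ, n0 ≤ n →
      ∀ V : Submodule (ZMod 2) (W n), Cov n r V → PairsRich V ω N →
        1 ≤ dens n r V * ((∏ j ∈ range r, (1 - (j : ℝ) / N)) + ε)) ∧
    (∀ (r N : ℕ) (M : ℝ), 1 ≤ N → M < Real.exp ((r : ℝ) * (r - 1) / (2 * N)) →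
      ∃ ω n0 : ℕ, ∀ n : ℕ, n0 ≤ n → ∀ V : Submodule (ZMod 2) (W n), Cov n r V → dens n r V ≤ M →
        ∃ S : Finset (Fin n), S.card = N + 1 ∧ ∀ i ∈ S, ∀ j ∈ S, i ≠ j → ¬ Rich V ω {i, j}) ∧
    (∀ (r N : ℕ) (ε : ℝ), 1 ≤ r → r ≤ N → 0 < ε → ∀ ω n1 : ℕ, ∃ n : ℕ, n1 ≤ n ∧
      ∃ V : Submodule (ZMod 2) (W n), Cov n r V ∧ PairsRich V ω N ∧
        dens n r V * (∏ j ∈ range r, (1 - (j : ℝ) / N)) ≤ 2 * Real.log (2 * (N.choose r : ℝ)) + ε) :=
  ⟨thmA, thmB, thmC, thmD⟩

end Pool.Agent.Results.MP_e73f90_co.TuranBarrier
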