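import Pool.Agent.Helper26.CovL.Num

set_option autoImplicit false

/-!
For every `ε > 0`, all large `r` and all large `n` (depending on `r`) there is a linear covering
code of radius `r` in `F_2^n` of density at most `(2 + ε) r log r`.
-/

namespace Pool.Agent.Results.MP_e73f90_co.UpperRLogR

open Pool.Agent.Helper26.CovL

theorem asymp (δ : ℝ) (hδ : 0 < δ) (hδ1 : δ ≤ 1) :
    ∃ R : ℕ, ∀ r : ℕ, R ≤ r → ∃ K C0 : ℕ, 1 ≤ r ∧ 1 ≤ K ∧ 2 ≤ C0 ∧
      (Real.exp 1 * (K * (r + 1) + 1)) ^ r ≤ (2 : ℝ) ^ C0 ∧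
      2 * Real.exp (1 / K) * ((C0 + r : ℕ) * Real.log 2) ≤ (2 + 6 * δ) * r * Real.log r := by
  have hlogd : 0 < Real.log (1 + δ) := Real.log_pos (by linarith)
  obtain ⟨K, hK⟩ := exists_nat_gt (1 / Real.log (1 + δ))
  have hKpos : (0 : ℝ) < K := lt_trans (by positivity) hK
  have hK1 : 1 ≤ K := by
    have : 0 < K := by exact_mod_cast hKpos
    omega
  have hexpK : Real.exp (1 / K) ≤ 1 + δ := by
    rw [← Real.exp_log (by linarith : (0 : ℝ) < 1 + δ), Real.exp_le_exp,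
      div_le_iff₀ hKpos]
    rw [div_lt_iff₀ hlogd] at hK
    linarith
  set L : ℝ := 3 + Real.log (2 * K + 1) with hL
  refine ⟨⌈Real.exp (L / δ)⌉₊ + 1, fun r hr => ?_⟩
  have hr1 : 1 ≤ r := by omega
  have hr1' : (1 : ℝ) ≤ r := by exact_mod_cast hr1
  have hrpos : (0 : ℝ) < r := by linarith
  have hrexp : Real.exp (L / δ) ≤ r := by
    refine (Nat.le_ceil _).trans ?_
    have : ⌈Real.exp (L / δ)⌉₊ ≤ r := by omega
    exact_mod_cast this
  have hlogr : L ≤ δ * Real.log r := by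
    have : L / δ ≤ Real.log r := by
      rw [Real.le_log_iff_exp_le hrpos]
      exact hrexp
    rwa [div_le_iff₀' hδ] at this
  set E : ℝ := Real.exp 1 * (K * (r + 1) + 1) with hE
  have hKr : (0 : ℝ) < K * (r + 1) + 1 := by positivity
  have hEpos : 0 < E := by positivity
  have hlog2 : (0.6931471803 : ℝ) < Real.log 2 := Real.log_two_gt_d9
  have hlog2' : Real.log 2 < (0.6931471808 : ℝ) := Real.log_two_lt_d9
  have hlogE : Real.log E = 1 + Real.log (K * (r + 1) + 1) := by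
    rw [hE, Real.log_mul (Real.exp_pos 1).ne' hKr.ne', Real.log_exp]
  have hlogE1 : Real.log E ≤ 1 + Real.log (2 * K + 1) + Real.log r := by
    rw [hlogE, add_assoc, ← Real.log_mul (by positivity) hrpos.ne']
    gcongr
    nlinarith
  have hlogE2 : 1 ≤ Real.log E := by
    rw [hlogE]
    have : 0 ≤ Real.log (K * (r + 1) + 1 : ℝ) := Real.log_nonneg (by
      have : (0 : ℝ) ≤ K * (r + 1) := by positivity
      linarith)
    linarith
  refine ⟨K, ⌈(r : ℝ) * Real.log E / Real.log 2⌉₊, hr1, hK1, ?_, ?_, ?_⟩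
  · have h1 : (1 : ℝ) < (r : ℝ) * Real.log E / Real.log 2 := by
      rw [lt_div_iff₀ (by linarith)]
      nlinarith
    have h2 : (1 : ℝ) < ⌈(r : ℝ) * Real.log E / Real.log 2⌉₊ := h1.trans_le (Nat.le_ceil _)
    have : 1 < ⌈(r : ℝ) * Real.log E / Real.log 2⌉₊ := by exact_mod_cast h2
    omega
  · have h1 : (r : ℝ) * Real.log E ≤ (⌈(r : ℝ) * Real.log E / Real.log 2⌉₊ : ℝ) * Real.log 2 := by
      rw [← div_le_iff₀ (by linarith)]
      exact Nat.le_ceil _
    have h2 : E ^ r = Real.exp (r * Real.log E) := by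
      rw [Real.exp_nat_mul, Real.exp_log hEpos]
    have h3 : (2 : ℝ) ^ ⌈(r : ℝ) * Real.log E / Real.log 2⌉₊ =
        Real.exp ((⌈(r : ℝ) * Real.log E / Real.log 2⌉₊ : ℝ) * Real.log 2) := by
      rw [Real.exp_nat_mul, Real.exp_log (by norm_num)]
    rw [h2, h3, Real.exp_le_exp]
    exact h1
  · have h0 : 0 ≤ (r : ℝ) * Real.log E / Real.log 2 := by
      apply div_nonneg _ (by linarith)
      nlinarith
    have h1 : (⌈(r : ℝ) * Real.log E / Real.log 2⌉₊ : ℝ) * Real.log 2 ≤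
        r * Real.log E + Real.log 2 := by
      have := (Nat.ceil_lt_add_one h0).le
      calc (⌈(r : ℝ) * Real.log E / Real.log 2⌉₊ : ℝ) * Real.log 2
          ≤ ((r : ℝ) * Real.log E / Real.log 2 + 1) * Real.log 2 :=
            mul_le_mul_of_nonneg_right this (by linarith)
        _ = _ := by field_simp
    have h2 : ((⌈(r : ℝ) * Real.log E / Real.log 2⌉₊ + r : ℕ) : ℝ) * Real.log 2 ≤
        r * (Real.log r + L) := by
      push_cast
      rw [add_mul]
      have h3 : (r : ℝ) * Real.log E ≤ r * (1 + Real.log (2 * K + 1) + Real.log r) :=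
        mul_le_mul_of_nonneg_left hlogE1 hrpos.le
      rw [hL]
      nlinarith
    have hlr0 : 0 ≤ Real.log r := Real.log_nonneg hr1'
    calc 2 * Real.exp (1 / K) *
          (((⌈(r : ℝ) * Real.log E / Real.log 2⌉₊ + r : ℕ) : ℝ) * Real.log 2)
        ≤ 2 * (1 + δ) * (r * (Real.log r + L)) := by
          gcongr
      _ ≤ 2 * (1 + δ) * (r * (Real.log r + δ * Real.log r)) := by
          gcongr
      _ = (2 * (1 + δ) ^ 2) * r * Real.log r := by ring
      _ ≤ (2 + 6 * δ) * r * Real.log r := by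
          have : 2 * (1 + δ) ^ 2 ≤ 2 + 6 * δ := by nlinarith
          gcongr

theorem result : ∀ ε : ℝ, 0 < ε → ∃ R : ℕ, ∀ r : ℕ, R ≤ r → ∃ N : ℕ, ∀ n : ℕ, N ≤ n →
    ∃ V : Submodule (ZMod 2) (Fin n → ZMod 2),
      (∀ y : Fin n → ZMod 2, ∃ v ∈ V, hammingNorm (y - v) ≤ r) ∧
      (Nat.card V : ℝ) *
        ((Finset.univ.filter (fun x : Fin n → ZMod 2 => hammingNorm x ≤ r)).card : ℝ) /
          (2 : ℝ) ^ n ≤ (2 + ε) * r * Real.log r := by
  intro ε hε
  obtain ⟨R, hR⟩ := asymp (min (ε / 6) 1) (by positivity) (min_le_right _ _)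
  refine ⟨R, fun r hr => ?_⟩
  obtain ⟨K, C0, hr1, hK, hC2, hC0, hD⟩ := hR r hr
  obtain ⟨N, hN⟩ := density r K C0 hr1 hK hC0 hC2
  refine ⟨N, fun n hn => ?_⟩
  obtain ⟨V, hV, hd⟩ := hN n hn
  refine ⟨V, hV, ?_⟩
  have hr1' : (1 : ℝ) ≤ r := by exact_mod_cast hr1
  have h1 : (2 + 6 * min (ε / 6) 1) * r * Real.log r ≤ (2 + ε) * r * Real.log r := by
    have h2 : min (ε / 6) 1 ≤ ε / 6 := min_le_left _ _
    have h3 : 0 ≤ Real.log r := Real.log_nonneg hr1'
    have h4 : (2 + 6 * min (ε / 6) 1) ≤ 2 + ε := by linarith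
    gcongr
  refine le_trans ?_ (hd.trans (hD.trans h1))
  apply le_of_eq
  congr 3

end Pool.Agent.Results.MP_e73f90_co.UpperRLogR
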